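import Pool.Agent.L0h32.HA.Words

/-!
# Two-way two-head automata whose heads know their positions
-/

set_option autoImplicit false

namespace Pool.Agent.L0h80.AW

open Pool.Agent.L0h32.HA

/-- A (nondeterministic) two-way two-head automaton over `Sym` whose heads know their positions.
`δ n p q σ q' m` says that on inputs of length `n`, with the heads at the positions `p`, in state `q`, reading the
cells `σ`, the automaton may pass to state `q'` and move head `i` by `m i`. -/
structure Aware : Type 1 where
  /-- the states -/
  Q : Type
  /-- there are finitely many states -/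
  finQ : Fintype Q
  /-- the initial state -/
  start : Q
  /-- the accepting states -/
  acc : Set Q
  /-- the transition relation -/
  δ : ℕ → (Fin 2 → ℕ) → Q → (Fin 2 → Cell Sym) → Q → (Fin 2 → SignType) → Prop

attribute [instance] Aware.finQ

/-- A configuration: the state and the positions of the heads. -/
abbrev Aware.Cfg (M : Aware) : Type := M.Q × (Fin 2 → ℕ)

/-- The initial configuration: initial state, all heads on the left endmarker. -/
def Aware.init (M : Aware) : M.Cfg := (M.start, fun _ => 0)

/-- One step on the word `w`; heads never leave the endmarked input. -/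
def Aware.Step (M : Aware) (w : List Sym) (c d : M.Cfg) : Prop :=
  ∃ m : Fin 2 → SignType,
    M.δ w.length c.2 c.1 (fun i => cell w (c.2 i)) d.1 m ∧
    (∀ i, ((d.2 i : ℕ) : ℤ) = (c.2 i : ℤ) + (m i : ℤ)) ∧
    ∀ i, d.2 i ≤ w.length + 1

/-- `c 0, ..., c T` is an accepting computation with `T` steps on the word `w`. -/
def Aware.IsAccRun (M : Aware) (w : List Sym) (T : ℕ) (c : ℕ → M.Cfg) : Prop :=
  c 0 = M.init ∧ (∀ t < T, M.Step w (c t) (c (t + 1))) ∧ (c T).1 ∈ M.acc

/-- The language accepted by `M`. -/
def Aware.lang (M : Aware) : Set (List Sym) :=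
  {w | ∃ T c, M.IsAccRun w T c}

/-- The direction of the last move of head `i` before time `t` (`0` if it has not moved). -/
def Aware.dir {M : Aware} (c : ℕ → M.Cfg) (i : Fin 2) : ℕ → SignType
  | 0 => 0
  | t + 1 =>
    if (c t).2 i < (c (t + 1)).2 i then 1
    else if (c (t + 1)).2 i < (c t).2 i then -1
    else Aware.dir c i t

/-- Head `i` reverses its direction in step `t`: it moves in this step, and its last
move before was in the opposite direction. -/
def Aware.Rev {M : Aware} (c : ℕ → M.Cfg) (i : Fin 2) (t : ℕ) : Prop :=
  ((c t).2 i < (c (t + 1)).2 i ∧ Aware.dir c i t = -1) ∨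
  ((c (t + 1)).2 i < (c t).2 i ∧ Aware.dir c i t = 1)

open Classical in
/-- The number of head reversals (of all heads together) in the first `T` steps of `c`. -/
noncomputable def Aware.revs {M : Aware} (c : ℕ → M.Cfg) (T : ℕ) : ℕ :=
  ∑ i : Fin 2, ((Finset.range T).filter (fun t => Aware.Rev c i t)).card

/-- `M` is deterministic: every configuration has at most one successor. -/
def Aware.Deterministic (M : Aware) : Prop :=
  ∀ (w : List Sym) (c d e : M.Cfg), M.Step w c d → M.Step w c e → d = e

end Pool.Agent.L0h80.AW
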