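import Pool.Agent.L0h80.HP.Visit
import Pool.Agent.L0h80.AW.Defs

/-!
# Two heads which know their positions

The lower bounds of `Pool/Agent/L0h80/HP/Few.lean` and `Visit.lean` hold for these
automata, with the same proofs.
-/

set_option autoImplicit false

namespace Pool.Agent.L0h80.AW

open Pool.Agent.L0h32.HA Pool.Agent.L0h80.HP

section Basic

variable (M : Aware)

lemma step_congr {w w' : List Sym} {u v : M.Cfg} (hc : ∀ j, cell w (u.2 j) = cell w' (u.2 j))
    (hlen : w.length = w'.length) (h : M.Step w u v) : M.Step w' u v := by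
  obtain ⟨m, h1, h2, h3⟩ := h
  refine ⟨m, ?_, h2, fun i => hlen ▸ h3 i⟩
  have : (fun i => cell w' (u.2 i)) = fun i => cell w (u.2 i) := funext fun i => (hc i).symm
  rw [this, ← hlen]
  exact h1

lemma step_pos {w : List Sym} {u v : M.Cfg} (h : M.Step w u v) (i : Fin 2) :
    v.2 i ≤ u.2 i + 1 ∧ u.2 i ≤ v.2 i + 1 ∧ v.2 i ≤ w.length + 1 := by
  obtain ⟨m, _, h2, h3⟩ := h
  have h4 := h2 i
  have h5 : ((m i : SignType) : ℤ) ≤ 1 ∧ -1 ≤ ((m i : SignType) : ℤ) := by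
    cases m i <;> simp
  refine ⟨?_, ?_, h3 i⟩ <;> omega

lemma mem_lang_of_reach {w : List Sym} {u : M.Cfg} (h : Relation.ReflTransGen (M.Step w) M.init u)
    (hu : u.1 ∈ M.acc) : w ∈ M.lang := by
  obtain ⟨n, hn⟩ := StepN.of_reach h
  obtain ⟨g, g0, gn, hg⟩ := hn.exists_fun
  exact ⟨n, g, g0, hg, by rw [gn]; exact hu⟩


variable {M}

lemma dir_eq (c : ℕ → M.Cfg) (i : Fin 2) (t : ℕ) :
    Aware.dir c i t = dr (fun t => (c t).2 i) t := by
  induction t with
  | zero => rfl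
  | succ t ih => simp only [Aware.dir, dr, ih]

lemma rev_iff (c : ℕ → M.Cfg) (i : Fin 2) (t : ℕ) :
    Aware.Rev c i t ↔ Rv (fun t => (c t).2 i) t := by
  unfold Aware.Rev Rv
  rw [dir_eq]

lemma revs_eq (c : ℕ → M.Cfg) (T : ℕ) :
    Aware.revs c T = ∑ i : Fin 2,
      ((Finset.range T).filter (fun t => Rv (fun t => (c t).2 i) t)).card := by
  unfold Aware.revs
  refine Finset.sum_congr rfl fun i _ => ?_
  congr 1
  ext t
  simp only [Finset.mem_filter, rev_iff]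

end Basic


section Two

variable {l : ℕ} (M : Aware)

/-- The owner of a configuration. -/
def ow (c1 c2 : ℕ) (v : M.Cfg) : Fin 3 := owner c1 c2 (v.2 0) (v.2 1)

/-- The accepting configurations. -/
def Fa : Set M.Cfg := {v | v.1 ∈ M.acc}

lemma indep0 {c1 c2 : ℕ} (h1 : l ≤ c1) (x x' y z : Fin l → Bool) (u v : M.Cfg)
    (h : ow M c1 c2 u = 0) (hs : M.Step (W x y z) u v) : M.Step (W x' y z) u v := by
  obtain ⟨a, b⟩ := owner_zero h
  refine step_congr M ?_ (by rw [W_length, W_length]) hs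
  rw [Fin.forall_fin_two]
  exact ⟨cell_indep_x _ _ _ _ (by omega), cell_indep_x _ _ _ _ (by omega)⟩

lemma indep1 {c1 c2 : ℕ} (h1 : c1 ≤ 2 * l) (h2 : 3 * l ≤ c2) (x y y' z : Fin l → Bool)
    (u v : M.Cfg)
    (h : ow M c1 c2 u = 1) (hs : M.Step (W x y z) u v) : M.Step (W x y' z) u v := by
  have hab := owner_one (by omega) h
  refine step_congr M ?_ (by rw [W_length, W_length]) hs
  rw [Fin.forall_fin_two]
  exact ⟨cell_indep_y _ _ _ _ (by omega), cell_indep_y _ _ _ _ (by omega)⟩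

lemma indep2 {c1 c2 : ℕ} (h2 : c2 ≤ 4 * l) (x y z z' : Fin l → Bool) (u v : M.Cfg)
    (h : ow M c1 c2 u = 2) (hs : M.Step (W x y z) u v) : M.Step (W x y z') u v := by
  obtain ⟨a, b⟩ := owner_two h
  refine step_congr M ?_ (by rw [W_length, W_length]) hs
  rw [Fin.forall_fin_two]
  exact ⟨cell_indep_z _ _ _ _ (by omega), cell_indep_z _ _ _ _ (by omega)⟩

open Classical in
/-- The possible boundary entries. -/
noncomputable def Un (l c1 c2 : ℕ) : Finset (M.Cfg × Fin 3) :=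
  (Finset.univ : Finset (M.Q × Fin 2 × Fin 4 × Fin (5 * l + 2) × Fin 3)).image
    (fun a => ((a.1, fun j => if j = a.2.1 then (![c1, c1 + 1, c2, c2 + 1] : Fin 4 → ℕ) a.2.2.1
      else (a.2.2.2.1 : ℕ)), a.2.2.2.2))

lemma Un_card (hl : 1 ≤ l) (c1 c2 : ℕ) :
    (Un M l c1 c2).card ≤ 168 * Fintype.card M.Q * l := by
  classical
  unfold Un
  refine Finset.card_image_le.trans ?_
  rw [Finset.card_univ]
  simp only [Fintype.card_prod, Fintype.card_fin]
  nlinarith [Nat.zero_le (Fintype.card M.Q * (l - 1)), Nat.mul_le_mul_left (Fintype.card M.Q) hl]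

lemma mem_Un {c1 c2 : ℕ} {x y z : Fin l → Bool} {u v : M.Cfg} {i : Fin 3}
    (hs : M.Step (W x y z) u v) (ho : ow M c1 c2 u ≠ ow M c1 c2 v) :
    (v, i) ∈ Un M l c1 c2 := by
  classical
  have p0 := step_pos M hs 0
  have p1 := step_pos M hs 1
  rw [W_length] at p0 p1
  have hch := owner_change ho
  have h0 : v.2 0 < 5 * l + 2 := by omega
  have h1 : v.2 1 < 5 * l + 2 := by omega
  unfold Un
  rw [Finset.mem_image]
  have key : (v.2 0 = c1 ∨ v.2 0 = c1 + 1 ∨ v.2 0 = c2 ∨ v.2 0 = c2 + 1) ∨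
      (v.2 1 = c1 ∨ v.2 1 = c1 + 1 ∨ v.2 1 = c2 ∨ v.2 1 = c2 + 1) := by omega
  have hv : ∀ f : Fin 2 → ℕ, f 0 = v.2 0 → f 1 = v.2 1 → ((v.1, f) : M.Cfg) = v := by
    intro f hf0 hf1
    refine Prod.ext rfl ?_
    funext j
    fin_cases j
    · exact hf0
    · exact hf1
  rcases key with h | h
  · rcases h with h | h | h | h
    · refine ⟨(v.1, 0, 0, ⟨v.2 1, h1⟩, i), Finset.mem_univ _, ?_⟩
      refine Prod.ext (hv _ ?_ ?_) rfl <;> simp [h]
    · refine ⟨(v.1, 0, 1, ⟨v.2 1, h1⟩, i), Finset.mem_univ _, ?_⟩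
      refine Prod.ext (hv _ ?_ ?_) rfl <;> simp [h]
    · refine ⟨(v.1, 0, 2, ⟨v.2 1, h1⟩, i), Finset.mem_univ _, ?_⟩
      refine Prod.ext (hv _ ?_ ?_) rfl <;> simp [h]
    · refine ⟨(v.1, 0, 3, ⟨v.2 1, h1⟩, i), Finset.mem_univ _, ?_⟩
      refine Prod.ext (hv _ ?_ ?_) rfl <;> simp [h]
  · rcases h with h | h | h | h
    · refine ⟨(v.1, 1, 0, ⟨v.2 0, h0⟩, i), Finset.mem_univ _, ?_⟩
      refine Prod.ext (hv _ ?_ ?_) rfl <;> simp [h]
    · refine ⟨(v.1, 1, 1, ⟨v.2 0, h0⟩, i), Finset.mem_univ _, ?_⟩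
      refine Prod.ext (hv _ ?_ ?_) rfl <;> simp [h]
    · refine ⟨(v.1, 1, 2, ⟨v.2 0, h0⟩, i), Finset.mem_univ _, ?_⟩
      refine Prod.ext (hv _ ?_ ?_) rfl <;> simp [h]
    · refine ⟨(v.1, 1, 3, ⟨v.2 0, h0⟩, i), Finset.mem_univ _, ?_⟩
      refine Prod.ext (hv _ ?_ ?_) rfl <;> simp [h]

/-- The number of boundary edges is at most the number of crossings of the two lines. -/
lemma bcount_le (c1 c2 : ℕ) (c : ℕ → M.Cfg) (T : ℕ) :
    bcount (ow M c1 c2) c T ≤ (crN (fun t => (c t).2 0) c1 T + crN (fun t => (c t).2 1) c1 T) +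
      (crN (fun t => (c t).2 0) c2 T + crN (fun t => (c t).2 1) c2 T) := by
  classical
  unfold bcount crN
  have hsub : (Finset.range T).filter (fun t => ow M c1 c2 (c t) ≠ ow M c1 c2 (c (t + 1))) ⊆
      (((Finset.range T).filter (fun t => Cr ((c t).2 0) ((c (t + 1)).2 0) c1)) ∪
      ((Finset.range T).filter (fun t => Cr ((c t).2 1) ((c (t + 1)).2 1) c1))) ∪
      (((Finset.range T).filter (fun t => Cr ((c t).2 0) ((c (t + 1)).2 0) c2)) ∪
      ((Finset.range T).filter (fun t => Cr ((c t).2 1) ((c (t + 1)).2 1) c2))) := by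
    intro t ht
    obtain ⟨h1, h2⟩ := Finset.mem_filter.1 ht
    have h3 := owner_change h2
    simp only [Finset.mem_union, Finset.mem_filter, h1, true_and]
    unfold Cr
    omega
  refine (Finset.card_le_card hsub).trans ?_
  refine (Finset.card_union_le _ _).trans ?_
  exact Nat.add_le_add (Finset.card_union_le _ _) (Finset.card_union_le _ _)

/-- Time: some pair of lines is crossed rarely. -/
lemma exists_lines {w : List Sym} {T : ℕ} {c : ℕ → M.Cfg} (l : ℕ) (hc : M.IsAccRun w T c) :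
    ∃ c1 ∈ Finset.Icc l (2 * l), ∃ c2 ∈ Finset.Icc (3 * l) (4 * l),
      (l + 1) * bcount (ow M c1 c2) c T ≤ 4 * T := by
  obtain ⟨h0, h1, h2⟩ := hc
  have hstep : ∀ i : Fin 2, ∀ t < T, (fun t => (c t).2 i) (t + 1) ≤ (fun t => (c t).2 i) t + 1 ∧
      (fun t => (c t).2 i) t ≤ (fun t => (c t).2 i) (t + 1) + 1 := by
    intro i t ht
    have := step_pos M (h1 t ht) i
    exact ⟨this.1, this.2.1⟩
  have hsum : ∀ I : Finset ℕ, ∑ a ∈ I, (crN (fun t => (c t).2 0) a T +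
      crN (fun t => (c t).2 1) a T) ≤ 2 * T := by
    intro I
    rw [Finset.sum_add_distrib]
    have a := sum_crN_le I (fun t => (c t).2 0) T (hstep 0)
    have b := sum_crN_le I (fun t => (c t).2 1) T (hstep 1)
    omega
  obtain ⟨c1, hc1, e1⟩ := exists_good_line (Finset.Icc l (2 * l)) ⟨l, by simp; omega⟩
    (fun a => crN (fun t => (c t).2 0) a T + crN (fun t => (c t).2 1) a T) (2 * T) (hsum _)
  obtain ⟨c2, hc2, e2⟩ := exists_good_line (Finset.Icc (3 * l) (4 * l)) ⟨3 * l, by simp; omega⟩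
    (fun a => crN (fun t => (c t).2 0) a T + crN (fun t => (c t).2 1) a T) (2 * T) (hsum _)
  refine ⟨c1, hc1, c2, hc2, ?_⟩
  have hb := bcount_le M c1 c2 c T
  simp only [Nat.card_Icc] at e1 e2
  rw [show 2 * l + 1 - l = l + 1 by omega] at e1
  rw [show 4 * l + 1 - 3 * l = l + 1 by omega] at e2
  calc (l + 1) * bcount (ow M c1 c2) c T ≤ (l + 1) *
      ((crN (fun t => (c t).2 0) c1 T + crN (fun t => (c t).2 1) c1 T) +
      (crN (fun t => (c t).2 0) c2 T + crN (fun t => (c t).2 1) c2 T)) :=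
        Nat.mul_le_mul_left _ hb
    _ = (l + 1) * (crN (fun t => (c t).2 0) c1 T + crN (fun t => (c t).2 1) c1 T) +
      (l + 1) * (crN (fun t => (c t).2 0) c2 T + crN (fun t => (c t).2 1) c2 T) := by ring
    _ ≤ 4 * T := by omega

/-- Reversals: all lines are crossed rarely. -/
lemma bcount_le_revs {w : List Sym} {T : ℕ} {c : ℕ → M.Cfg} (c1 c2 : ℕ)
    (hc : M.IsAccRun w T c) : bcount (ow M c1 c2) c T ≤ 4 * (Aware.revs c T + 1) := by
  obtain ⟨h0, h1, h2⟩ := hc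
  have hb := bcount_le M c1 c2 c T
  have hz : ∀ (i : Fin 2) (a : ℕ), (fun t => (c t).2 i) 0 ≤ a := by
    intro i a
    show (c 0).2 i ≤ a
    rw [h0]
    exact Nat.zero_le _
  have e1 := crN_le_rev (fun t => (c t).2 0) c1 (hz 0 c1) T
  have e2 := crN_le_rev (fun t => (c t).2 1) c1 (hz 1 c1) T
  have e3 := crN_le_rev (fun t => (c t).2 0) c2 (hz 0 c2) T
  have e4 := crN_le_rev (fun t => (c t).2 1) c2 (hz 1 c2) T
  have hr := revs_eq c T
  rw [Fin.sum_univ_two] at hr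
  omega


open Classical in
/-- Few accepted words of the family have computations with few boundary edges, if no word outside
the language is accepted. -/
theorem few_cheap (hl : 1024 ≤ l) (R lam : ℕ) (hs : Fintype.card M.Q ≤ 2 ^ lam)
    (hlam : 1 ≤ lam) (hR : 600 * lam * R ≤ l)
    (E : ℕ) (hE : E ^ 4 ≤ 3072 ^ l)
    (hM : (Finset.univ.filter (fun a : (Fin l → Bool) × (Fin l → Bool) × (Fin l → Bool) =>
      W a.1 a.2.1 a.2.2 ∈ M.lang ∧ sg a.1 a.2.1 a.2.2 = 1)).card ≤ E)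
    (Ch : Finset ((Fin l → Bool) × (Fin l → Bool) × (Fin l → Bool)))
    (hodd : ∀ a ∈ Ch, sg a.1 a.2.1 a.2.2 = -1)
    (hcheap : ∀ a ∈ Ch, ∃ T c, M.IsAccRun (W a.1 a.2.1 a.2.2) T c ∧
      ∃ c1 ∈ Finset.Icc l (2 * l), ∃ c2 ∈ Finset.Icc (3 * l) (4 * l),
        bcount (ow M c1 c2) c T ≤ R) :
    (8 * (Ch.card : ℝ)) ^ 4 ≤ Real.exp (l / 4) * 3072 ^ l := by
  -- the sets described by the certificates
  let C : ℕ → ℕ → Fin 3 → Finset (M.Cfg × Fin 3) →
      Finset ((Fin l → Bool) × (Fin l → Bool) × (Fin l → Bool)) := fun c1 c2 lf S =>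
    Finset.univ.filter (fun a =>
      Psi (ow M c1 c2) (M.Step (W (fun _ => false) a.2.1 a.2.2)) (Fa M) M.init lf
        (Finset.insertNone S) 0 ∧
      Psi (ow M c1 c2) (M.Step (W a.1 (fun _ => false) a.2.2)) (Fa M) M.init lf
        (Finset.insertNone S) 1 ∧
      Psi (ow M c1 c2) (M.Step (W a.1 a.2.1 (fun _ => false))) (Fa M) M.init lf
        (Finset.insertNone S) 2)
  have hsound : ∀ c1 ∈ Finset.Icc l (2 * l), ∀ c2 ∈ Finset.Icc (3 * l) (4 * l), ∀ lf S,
      ∀ a ∈ C c1 c2 lf S, W a.1 a.2.1 a.2.2 ∈ M.lang := by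
    rintro c1 hc1 c2 hc2 lf S ⟨x, y, z⟩ ha
    rw [Finset.mem_Icc] at hc1 hc2
    obtain ⟨-, p0, p1, p2⟩ := Finset.mem_filter.1 ha
    have q0 : Psi (ow M c1 c2) (M.Step (W x y z)) (Fa M) M.init lf
        (Finset.insertNone S) 0 := p0.congr (fun u v ho => indep0 M (by omega) _ _ _ _ u v ho)
    have q1 : Psi (ow M c1 c2) (M.Step (W x y z)) (Fa M) M.init lf
        (Finset.insertNone S) 1 :=
      p1.congr (fun u v ho => indep1 M (by omega) (by omega) _ _ _ _ u v ho)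
    have q2 : Psi (ow M c1 c2) (M.Step (W x y z)) (Fa M) M.init lf
        (Finset.insertNone S) 2 := p2.congr (fun u v ho => indep2 M (by omega) _ _ _ _ u v ho)
    obtain ⟨u, hu, hr⟩ := cert_sound (Finset.insertNone S) Finset.none_mem_insertNone
      (fun i => by
        fin_cases i
        · exact q0
        · exact q1
        · exact q2)
    exact mem_lang_of_reach M hr hu
  -- bound for the size of a single set
  let n : ℕ := Nat.findGreatest (fun m => m ^ 4 ≤ 3072 ^ l) (3072 ^ l)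
  have hn : n ^ 4 ≤ 3072 ^ l :=
    Nat.findGreatest_spec (P := fun m => m ^ 4 ≤ 3072 ^ l) (Nat.zero_le _) (by simp)
  have hnmax : ∀ m : ℕ, m ^ 4 ≤ 3072 ^ l → m ≤ n := fun m h4 =>
    Nat.le_findGreatest ((Nat.le_self_pow (by norm_num) _).trans h4) h4
  have hEn : E ≤ n := hnmax E hE
  have hCn : ∀ c1 ∈ Finset.Icc l (2 * l), ∀ c2 ∈ Finset.Icc (3 * l) (4 * l), ∀ lf S,
      ((C c1 c2 lf S).filter (fun a => sg a.1 a.2.1 a.2.2 = -1)).card ≤ 2 * n := by
    intro c1 hc1 c2 hc2 lf S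
    have h1 := odd_le (C c1 c2 lf S) n E hnmax (cyl_err
      (fun y z => Psi (ow M c1 c2) (M.Step (W (fun _ => false) y z)) (Fa M) M.init lf
        (Finset.insertNone S) 0)
      (fun x z => Psi (ow M c1 c2) (M.Step (W x (fun _ => false) z)) (Fa M) M.init lf
        (Finset.insertNone S) 1)
      (fun x y => Psi (ow M c1 c2) (M.Step (W x y (fun _ => false))) (Fa M) M.init lf
        (Finset.insertNone S) 2)) ?_
    · omega
    · refine le_trans (Finset.card_le_card ?_) hM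
      intro a ha
      rw [Finset.mem_filter] at ha ⊢
      exact ⟨Finset.mem_univ _, hsound c1 hc1 c2 hc2 lf S a ha.1, ha.2⟩
  -- the number of certificates
  set N := 168 * Fintype.card M.Q * l with hN
  let K : ℝ := ((2 : ℝ) ^ (lam + 14)) ^ R * (1 + 1 / (2 : ℝ) ^ (lam + 14)) ^ N
  have hKpos : 0 ≤ K := by positivity
  have hPS : ∀ c1 c2, ((Un M l c1 c2).powerset.filter (fun t => t.card ≤ R)).card ≤ ⌊K⌋₊ := by
    intro c1 c2
    refine Nat.le_floor ?_
    refine (card_small_subsets (Un M l c1 c2) R ((2 : ℝ) ^ (lam + 14))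
      (one_le_pow₀ (by norm_num))).trans ?_
    refine mul_le_mul_of_nonneg_left ?_ (by positivity)
    exact pow_le_pow_right₀ (by
      have : (0 : ℝ) ≤ 1 / (2 : ℝ) ^ (lam + 14) := by positivity
      linarith) (Un_card M (by omega) c1 c2)
  -- covering
  let Idx : Finset (ℕ × ℕ × Fin 3) :=
    Finset.Icc l (2 * l) ×ˢ (Finset.Icc (3 * l) (4 * l) ×ˢ (Finset.univ : Finset (Fin 3)))
  have hcover : Ch ⊆ Idx.biUnion (fun κ =>
        ((Un M l κ.1 κ.2.1).powerset.filter (fun t => t.card ≤ R)).biUnion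
          (fun S => (C κ.1 κ.2.1 κ.2.2 S).filter (fun a => sg a.1 a.2.1 a.2.2 = -1))) := by
    rintro ⟨x, y, z⟩ ha
    obtain ⟨T, c, hc, c1, hc1, c2, hc2, hb⟩ := hcheap _ ha
    obtain ⟨S, hS1, hS2, hS3⟩ := cert_complete (o := ow M c1 c2) (F := Fa M) (v0 := M.init)
      hc.1 hc.2.1 hc.2.2 hb
    refine Finset.mem_biUnion.2 ⟨(c1, c2, ow M c1 c2 (c T)), ?_, ?_⟩
    · simp only [Idx, Finset.mem_product, Finset.mem_univ, and_true]
      exact ⟨hc1, hc2⟩
    · refine Finset.mem_biUnion.2 ⟨S, ?_, ?_⟩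
      · rw [Finset.mem_filter, Finset.mem_powerset]
        refine ⟨?_, hS1⟩
        rintro ⟨v, i⟩ he
        obtain ⟨u, hu, ho, _⟩ := hS2 _ he
        exact mem_Un M hu ho
      · rw [Finset.mem_Icc] at hc1 hc2
        refine Finset.mem_filter.2 ⟨?_, hodd _ ha⟩
        refine Finset.mem_filter.2 ⟨Finset.mem_univ _, ?_, ?_, ?_⟩
        · exact (hS3 0).congr (fun u v ho => indep0 M (by omega) _ _ _ _ u v ho)
        · exact (hS3 1).congr (fun u v ho => indep1 M (by omega) (by omega) _ _ _ _ u v ho)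
        · exact (hS3 2).congr (fun u v ho => indep2 M (by omega) _ _ _ _ u v ho)
  have hcount : Ch.card ≤ (3 * (l + 1) ^ 2) * (⌊K⌋₊ * (2 * n)) := by
    refine (Finset.card_le_card hcover).trans ?_
    have hIdx : Idx.card = 3 * (l + 1) ^ 2 := by
      simp only [Idx, Finset.card_product, Nat.card_Icc, Finset.card_univ, Fintype.card_fin]
      rw [show 2 * l + 1 - l = l + 1 by omega, show 4 * l + 1 - 3 * l = l + 1 by omega]
      ring
    rw [← hIdx]
    refine Finset.card_biUnion_le_card_mul _ _ _ fun κ hκ => ?_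
    simp only [Idx, Finset.mem_product] at hκ
    refine (Finset.card_biUnion_le_card_mul _ _ (2 * n) fun S _ =>
      hCn _ hκ.1 _ hκ.2.1 _ _).trans ?_
    exact Nat.mul_le_mul_right _ (hPS _ _)
  -- the final computation
  have hnum := numeric_exp l (Fintype.card M.Q) R lam N hl hs hlam hR le_rfl
  have hcount' : (Ch.card : ℝ) ≤ 3 * ((l : ℝ) + 1) ^ 2 * (K * (2 * n)) := by
    have h1 : (Ch.card : ℝ) ≤ 3 * ((l : ℝ) + 1) ^ 2 * (⌊K⌋₊ * (2 * n)) := by exact_mod_cast hcount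
    refine h1.trans ?_
    refine mul_le_mul_of_nonneg_left ?_ (by positivity)
    exact mul_le_mul_of_nonneg_right (Nat.floor_le hKpos) (by positivity)
  have h8 : 8 * (Ch.card : ℝ) ≤ 48 * ((l : ℝ) + 1) ^ 2 * K * n := by
    calc 8 * (Ch.card : ℝ) ≤ 8 * (3 * ((l : ℝ) + 1) ^ 2 * (K * (2 * n))) := by linarith
      _ = _ := by ring
  have h84 : (8 * (Ch.card : ℝ)) ^ 4 ≤ (48 * ((l : ℝ) + 1) ^ 2 * K * n) ^ 4 :=
    pow_le_pow_left₀ (by positivity) h8 4
  have hn' : (n : ℝ) ^ 4 ≤ 3072 ^ l := by exact_mod_cast hn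
  refine h84.trans ?_
  have : (48 * ((l : ℝ) + 1) ^ 2 * K * n) ^ 4 =
      ((5308416 : ℝ) * ((l : ℝ) + 1) ^ 8 * K ^ 4) * (n : ℝ) ^ 4 := by ring
  rw [this]
  exact mul_le_mul hnum.le hn' (by positivity) (Real.exp_pos _).le


end Two

open Classical in
/-- The set of the configurations `c 0, ..., c T`. -/
noncomputable def vis {M : Aware} (c : ℕ → M.Cfg) (T : ℕ) : Finset M.Cfg :=
  (Finset.range (T + 1)).image c

/-- A computation can be replaced by one without repeated configurations, inside the set of the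
configurations of the given one. -/
theorem loop_free (M : Aware) {w : List Sym} {T : ℕ} {c : ℕ → M.Cfg}
    (hc : M.IsAccRun w T c) : ∃ T' g, M.IsAccRun w T' g ∧ T' + 1 ≤ (vis c T).card := by
  classical
  obtain ⟨h0, h1, h2⟩ := hc
  have hV : ∀ t ≤ T, c t ∈ vis c T := fun t ht =>
    Finset.mem_image.2 ⟨t, Finset.mem_range.2 (by omega), rfl⟩
  let r : M.Cfg → M.Cfg → Prop := fun a b => M.Step w a b ∧ b ∈ vis c T
  have hr : ∀ t < T, r (c t) (c (t + 1)) := fun t ht => ⟨h1 t ht, hV _ (by omega)⟩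
  have hex : ∃ T, ∃ d : M.Cfg, d.1 ∈ M.acc ∧ StepN r T M.init d := by
    refine ⟨T, c T, h2, ?_⟩
    have := StepN.of_fun hr (Nat.zero_le T) le_rfl
    rwa [h0] at this
  obtain ⟨d, hd, hst⟩ := Nat.find_spec hex
  set T' := Nat.find hex with hT
  obtain ⟨g, g0, gn, hg⟩ := hst.exists_fun
  refine ⟨T', g, ⟨g0, fun i hi => (hg i hi).1, by rw [gn]; exact hd⟩, ?_⟩
  have hinj : ∀ i j, i < j → j ≤ T' → g i ≠ g j := by
    intro i j hij hj he
    have w1 := StepN.of_fun hg (Nat.zero_le i) (by omega : i ≤ T')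
    have w2 := StepN.of_fun hg hj le_rfl
    rw [g0, he] at w1
    rw [gn] at w2
    have w3 := w1.add w2
    exact Nat.find_min hex (m := i - 0 + (T' - j)) (by omega) ⟨d, hd, w3⟩
  have hmem : ∀ t ≤ T', g t ∈ vis c T := by
    intro t ht
    cases t with
    | zero => rw [g0, ← h0]; exact hV 0 (Nat.zero_le _)
    | succ t => exact (hg t (by omega)).2
  have hcard : ((Finset.range (T' + 1)).image g).card = T' + 1 := by
    rw [Finset.card_image_of_injOn, Finset.card_range]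
    intro i hi j hj he
    have hi' : i < T' + 1 := by simpa using hi
    have hj' : j < T' + 1 := by simpa using hj
    rcases lt_trichotomy i j with h | h | h
    · exact absurd he (hinj _ _ h (by omega))
    · exact h
    · exact absurd he.symm (hinj _ _ h (by omega))
  rw [← hcard]
  apply Finset.card_le_card
  intro v hv
  obtain ⟨t, ht, rfl⟩ := Finset.mem_image.1 hv
  exact hmem t (by have := Finset.mem_range.1 ht; omega)


section Three

variable {l : ℕ} (M : Aware)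

/-- The word is accepted with few configurations or few reversals. -/
def Thrifty (l : ℕ) (w : List Sym) : Prop :=
  ∃ T c, M.IsAccRun w T c ∧
    (2 ^ 20 * (Nat.log 2 (Fintype.card M.Q) + 1) * (vis c T).card < l ^ 2 ∨
      2 ^ 20 * (Nat.log 2 (Fintype.card M.Q) + 1) * (Aware.revs c T + 1) < l)

lemma vis_pos (c : ℕ → M.Cfg) (T : ℕ) : 1 ≤ (vis c T).card := by
  classical
  refine Finset.card_pos.2 ⟨c 0, Finset.mem_image.2 ⟨0, by simp, rfl⟩⟩

lemma cheap_of_thrifty (w : List Sym) (h : Thrifty M l w) :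
    ∃ T c, M.IsAccRun w T c ∧ ∃ c1 ∈ Finset.Icc l (2 * l), ∃ c2 ∈ Finset.Icc (3 * l) (4 * l),
      bcount (ow M c1 c2) c T ≤ l / (600 * (Nat.log 2 (Fintype.card M.Q) + 1)) := by
  obtain ⟨T, c, hc, hr⟩ := h
  set lam := Nat.log 2 (Fintype.card M.Q) + 1 with hlam
  have hlam1 : 1 ≤ lam := by omega
  have hle : ∀ b : ℕ, 600 * lam * b ≤ l → b ≤ l / (600 * lam) := by
    intro b hb
    rw [Nat.le_div_iff_mul_le (by positivity)]
    rw [mul_comm]; exact hb
  rcases hr with h1 | h2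
  · obtain ⟨T', g, hg, hT⟩ := loop_free M hc
    obtain ⟨c1, hc1, c2, hc2, hb⟩ := exists_lines M l hg
    refine ⟨T', g, hg, c1, hc1, c2, hc2, hle _ ?_⟩
    set b := bcount (ow M c1 c2) g T' with hbdef
    by_contra hgt
    push Not at hgt
    have e0 : 2 ^ 20 * lam * (T' + 1) < l ^ 2 :=
      lt_of_le_of_lt (Nat.mul_le_mul_left _ hT) h1
    have e1 : (l + 1) * (600 * lam * b) ≤ 2400 * lam * T' := by
      calc (l + 1) * (600 * lam * b) = 600 * lam * ((l + 1) * b) := by ring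
        _ ≤ 600 * lam * (4 * T') := Nat.mul_le_mul_left _ hb
        _ = 2400 * lam * T' := by ring
    have e2 : 2400 * lam * T' ≤ 2 ^ 20 * lam * (T' + 1) := by
      calc 2400 * lam * T' ≤ 2 ^ 20 * lam * T' :=
            Nat.mul_le_mul_right _ (Nat.mul_le_mul_right _ (by norm_num))
        _ ≤ _ := Nat.mul_le_mul_left _ (by omega)
    have e3 : (l + 1) * l ≤ (l + 1) * (600 * lam * b) := Nat.mul_le_mul_left _ hgt.le
    nlinarith
  · refine ⟨T, c, hc, l, by simp; omega, 3 * l, by simp; omega, hle _ ?_⟩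
    have hb := bcount_le_revs M l (3 * l) hc
    calc 600 * lam * bcount (ow M l (3 * l)) c T ≤ 600 * lam * (4 * (Aware.revs c T + 1)) :=
          Nat.mul_le_mul_left _ hb
      _ = 2400 * lam * (Aware.revs c T + 1) := by ring
      _ ≤ 2 ^ 20 * lam * (Aware.revs c T + 1) := by
          refine Nat.mul_le_mul_right _ (Nat.mul_le_mul_right _ (by norm_num))
      _ ≤ l := h2.le

lemma not_thrifty_small (hl : l < 1024) (w : List Sym) : ¬ Thrifty M l w := by
  rintro ⟨T, c, -, h | h⟩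
  · have h1 : l ^ 2 ≤ 2 ^ 20 := by
      calc l ^ 2 ≤ 1024 ^ 2 := Nat.pow_le_pow_left hl.le 2
        _ = 2 ^ 20 := by norm_num
    have h2 : 2 ^ 20 ≤ 2 ^ 20 * (Nat.log 2 (Fintype.card M.Q) + 1) * (vis c T).card := by
      rw [mul_assoc]
      exact Nat.le_mul_of_pos_right _ (Nat.mul_pos (by omega) (vis_pos M c T))
    omega
  · have h3 : 2 ^ 20 ≤ 2 ^ 20 * (Nat.log 2 (Fintype.card M.Q) + 1) * (Aware.revs c T + 1) := by
      rw [mul_assoc]
      exact Nat.le_mul_of_pos_right _ (by positivity)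
    have : (1024 : ℕ) ≤ 2 ^ 20 := by norm_num
    omega

open Classical in
/-- Few triples are thrifty. -/
theorem few_thrifty (hM : (((Finset.univ.filter
      (fun a : (Fin l → Bool) × (Fin l → Bool) × (Fin l → Bool) =>
      W a.1 a.2.1 a.2.2 ∈ M.lang ∧ sg a.1 a.2.1 a.2.2 = 1)).card : ℕ) : ℝ) ≤
      2 ^ (-(l : ℝ) / 9) * 8 ^ l) :
    8 * ((Finset.univ.filter (fun a : (Fin l → Bool) × (Fin l → Bool) × (Fin l → Bool) =>
      sg a.1 a.2.1 a.2.2 = -1 ∧ Thrifty M l (W a.1 a.2.1 a.2.2))).card : ℝ) ≤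
      2 ^ (-(l : ℝ) / 80) * 8 ^ l := by
  rcases Nat.lt_or_ge l 1024 with hl' | hl'
  · rw [Finset.filter_false_of_mem (fun a _ h => not_thrifty_small M hl' _ h.2)]
    simp
    positivity
  · refine root_aux ?_
    have hs : Fintype.card M.Q ≤ 2 ^ (Nat.log 2 (Fintype.card M.Q) + 1) :=
      (Nat.lt_pow_succ_log_self (by norm_num) _).le
    exact few_cheap M hl' (l / (600 * (Nat.log 2 (Fintype.card M.Q) + 1))) _ hs (by omega)
      (Nat.mul_div_le l _) _ (err_aux hM) le_rfl _ (fun a ha => (Finset.mem_filter.1 ha).2.1)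
      (fun a ha => cheap_of_thrifty M _ (Finset.mem_filter.1 ha).2.2)

/-- The average-case bound. -/
theorem average (hl : 1 ≤ l)
    (hM : ({w | w ∈ Fam l ∧ w ∈ M.lang ∧ w ∉ P.lang}.ncard : ℝ) ≤ 2 ^ (-(l : ℝ) / 9) * 8 ^ l) :
    ({w | w ∈ Fam l ∧ w ∈ P.lang ∧ Thrifty M l w}.ncard : ℝ) ≤
      2 ^ (-(l : ℝ) / 80) * ({w | w ∈ Fam l ∧ w ∈ P.lang}.ncard : ℝ) := by
  classical
  have hP : ∀ a : (Fin l → Bool) × (Fin l → Bool) × (Fin l → Bool),
      W a.1 a.2.1 a.2.2 ∈ P.lang ↔ sg a.1 a.2.1 a.2.2 = -1 := fun a => W_mem_lang _ _ _ hl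
  have hN : ∀ a : (Fin l → Bool) × (Fin l → Bool) × (Fin l → Bool),
      W a.1 a.2.1 a.2.2 ∉ P.lang ↔ sg a.1 a.2.1 a.2.2 = 1 := by
    intro a
    rw [hP]
    rcases sg_cases a.1 a.2.1 a.2.2 with h | h <;> simp [h]
  have c1 : ∀ (p q : (Fin l → Bool) × (Fin l → Bool) × (Fin l → Bool) → Prop) [DecidablePred p]
      [DecidablePred q], (∀ a, p a ↔ q a) →
      (Finset.univ.filter p).card = (Finset.univ.filter q).card := by
    intro p q _ _ h
    congr 1
    ext a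
    simp [h]
  rw [ncard_fam (fun w => w ∈ M.lang ∧ w ∉ P.lang)] at hM
  have h1 := few_thrifty M (l := l) (by
    refine le_trans (le_of_eq ?_) hM
    rw [Nat.cast_inj]
    exact @c1 _ _ _ (fun a => Classical.propDecidable _) (fun a => by rw [hN]))
  rw [ncard_fam (fun w => w ∈ P.lang ∧ Thrifty M l w)]
  have h0 : ∀ inst : DecidablePred (fun a : (Fin l → Bool) × (Fin l → Bool) × (Fin l → Bool) =>
      W a.1 a.2.1 a.2.2 ∈ P.lang ∧ Thrifty M l (W a.1 a.2.1 a.2.2)),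
      ((@Finset.filter _ _ inst Finset.univ).card : ℝ) * 8 ≤ 2 ^ (-(l : ℝ) / 80) * 8 ^ l := by
    intro inst
    refine le_trans (le_of_eq ?_) h1
    rw [mul_comm]
    congr 1
    rw [Nat.cast_inj]
    exact @c1 _ _ _ _ (fun a => by rw [hP])
  have h6 := h0 (fun a => Classical.propDecidable _)
  have h2 := many (l := l) hl
  have h3 : (8 : ℝ) ^ l ≤ 8 * ({w | w ∈ Fam l ∧ w ∈ P.lang}.ncard : ℝ) := by exact_mod_cast h2
  have h4 : (0 : ℝ) < 2 ^ (-(l : ℝ) / 80) := by positivity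
  have h5 : 2 ^ (-(l : ℝ) / 80) * (8 : ℝ) ^ l ≤
      2 ^ (-(l : ℝ) / 80) * (8 * ({w | w ∈ Fam l ∧ w ∈ P.lang}.ncard : ℝ)) :=
    mul_le_mul_of_nonneg_left h3 h4.le
  linarith


end Three

end Pool.Agent.L0h80.AW
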