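import Pool.Agent.L0h80.AW.Aware

/-!
# A deterministic automaton with eight states whose heads know their positions
-/

set_option autoImplicit false

namespace Pool.Agent.L0h80.AW

open Pool.Agent.L0h32.HA Pool.Agent.L0h80.HP

/-- The states: moving head `1` to the block `y`, a sweep of head `0` to the right (with the parity of the sum so far
and the product of the bits read in this round), a sweep to the left, and the accepting state. -/
inductive St : Type where
  | go : St
  | right : Bool → Bool → St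
  | left : Bool → St
  | yes : St
  deriving DecidableEq, Fintype

/-- the bit of a cell -/
def bitOf : Cell Sym → Bool
  | Cell.sym (Sym.x b) => b
  | Cell.sym (Sym.y b) => b
  | Cell.sym (Sym.z b) => b
  | _ => false

/-- The transition function, for inputs of length `5 l`. -/
def next (l : ℕ) (p : Fin 2 → ℕ) (q : St) (σ : Fin 2 → Cell Sym) : Option (St × (Fin 2 → SignType)) :=
  match q with
  | St.go => if p 1 = 2 * l + 1 then some (St.right false true, ![0, 0]) else some (St.go, ![0, 1])
  | St.right a b =>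
    if p 0 = 5 * l + 1 then some (St.left (xor a (b && bitOf (σ 1))), ![0, 0])
    else if p 0 + 2 * l = p 1 ∨ p 0 = p 1 + 2 * l then some (St.right a (b && bitOf (σ 0)), ![1, 0])
    else some (St.right a b, ![1, 0])
  | St.left a =>
    if p 0 = 0 then
      (if p 1 = 3 * l then (if a = true then some (St.yes, ![0, 0]) else none)
        else some (St.right a true, ![0, 1]))
    else some (St.left a, ![-1, 0])
  | St.yes => none

/-- The automaton. -/
def U : Aware where
  Q := St
  finQ := inferInstance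
  start := St.go
  acc := {St.yes}
  δ n p q σ q' m := next (n / 5) p q σ = some (q', m)

theorem U_det : U.Deterministic := by
  rintro w c d e ⟨m, h1, h2, -⟩ ⟨m', h1', h2', -⟩
  have h3 : (some (d.1, m) : Option (St × (Fin 2 → SignType))) = some (e.1, m') := h1.symm.trans h1'
  injection h3 with h4
  have h5 : d.1 = e.1 := (Prod.mk.inj h4).1
  have h6 : m = m' := (Prod.mk.inj h4).2
  refine Prod.ext h5 ?_
  funext i
  have e1 := h2 i
  have e2 := h2' i
  rw [h6] at e1
  omega

section Run

variable {l : ℕ} (x y z : Fin l → Bool)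

/-- the bit at a position, `false` outside -/
def bt (x : Fin l → Bool) (t : ℕ) : Bool := if h : t < l then x ⟨t, h⟩ else false

/-- the parity of the partial sums -/
def pr : ℕ → Bool
  | 0 => false
  | t + 1 => xor (pr t) (bt x t && bt z t && bt y t)

/-- the product of the bits read by head `0` in round `t` before it reaches the position `p` -/
def cu (t p : ℕ) : Bool := (if t + 1 < p then bt x t else true) && (if 4 * l + t + 1 < p then bt z t else true)

lemma step_mk {w : List Sym} {q q' : St} {p p' : Fin 2 → ℕ} {m : Fin 2 → SignType} (hw : w.length = 5 * l)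
    (h : next l p q (fun i => cell w (p i)) = some (q', m))
    (h0 : ((p' 0 : ℕ) : ℤ) = (p 0 : ℤ) + (m 0 : ℤ)) (h1 : ((p' 1 : ℕ) : ℤ) = (p 1 : ℤ) + (m 1 : ℤ))
    (b0 : p' 0 ≤ 5 * l + 1) (b1 : p' 1 ≤ 5 * l + 1) : U.Step w (q, p) (q', p') := by
  refine ⟨m, ?_, ?_, ?_⟩
  · show next (w.length / 5) p q (fun i => cell w (p i)) = some (q', m)
    rw [hw, Nat.mul_div_cancel_left l (by norm_num)]
    exact h
  · rw [Fin.forall_fin_two]; exact ⟨h0, h1⟩
  · rw [Fin.forall_fin_two, hw]; exact ⟨b0, b1⟩

lemma run_go (j : ℕ) (hj : j ≤ 2 * l + 1) :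
    StepN (U.Step (W x y z)) j (St.go, ![0, 0]) (St.go, ![0, j]) := by
  induction j with
  | zero => rfl
  | succ j ih =>
    refine ⟨_, ih (by omega), step_mk (W_length x y z) (m := ![0, 1]) ?_ ?_ ?_ ?_ ?_⟩
    · unfold next
      have : ¬ (![0, j] : Fin 2 → ℕ) 1 = 2 * l + 1 := by
        show ¬ j = 2 * l + 1
        omega
      simp only [if_neg this]
    · simp
    · simp
    · simp
    · show j + 1 ≤ 5 * l + 1
      omega

lemma run_switch : U.Step (W x y z) (St.go, ![0, 2 * l + 1]) (St.right false true, ![0, 2 * l + 1]) := by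
  refine step_mk (W_length x y z) (m := ![0, 0]) ?_ ?_ ?_ ?_ ?_
  · unfold next
    have : (![0, 2 * l + 1] : Fin 2 → ℕ) 1 = 2 * l + 1 := rfl
    simp only [if_pos this]
  · simp
  · simp
  · simp
  · show 2 * l + 1 ≤ 5 * l + 1
    omega

lemma bit_x {t : ℕ} (ht : t < l) : bitOf (cell (W x y z) (t + 1)) = bt x t := by
  have h := cell_x x y z ⟨t, ht⟩
  rw [show t + 1 = ((⟨t, ht⟩ : Fin l) : ℕ) + 1 from rfl, h]
  simp [bitOf, bt, ht]

lemma bit_y {t : ℕ} (ht : t < l) : bitOf (cell (W x y z) (2 * l + t + 1)) = bt y t := by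
  have h := cell_y x y z ⟨t, ht⟩
  rw [show 2 * l + t + 1 = 2 * l + ((⟨t, ht⟩ : Fin l) : ℕ) + 1 from rfl, h]
  simp [bitOf, bt, ht]

lemma bit_z {t : ℕ} (ht : t < l) : bitOf (cell (W x y z) (4 * l + t + 1)) = bt z t := by
  have h := cell_z x y z ⟨t, ht⟩
  rw [show 4 * l + t + 1 = 4 * l + ((⟨t, ht⟩ : Fin l) : ℕ) + 1 from rfl, h]
  simp [bitOf, bt, ht]

lemma run_right {t : ℕ} (ht : t < l) (a : Bool) (p : ℕ) (hp : p ≤ 5 * l + 1) :
    StepN (U.Step (W x y z)) p (St.right a true, ![0, 2 * l + t + 1])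
      (St.right a (cu x z t p), ![p, 2 * l + t + 1]) := by
  induction p with
  | zero => simp [StepN, cu]
  | succ p ih =>
    have e0 : (![p, 2 * l + t + 1] : Fin 2 → ℕ) 0 = p := rfl
    have e1 : (![p, 2 * l + t + 1] : Fin 2 → ℕ) 1 = 2 * l + t + 1 := rfl
    refine ⟨_, ih (by omega), step_mk (W_length x y z) (m := ![1, 0]) ?_ ?_ ?_ ?_ ?_⟩
    · unfold next
      simp only [e0, e1]
      rw [if_neg (by omega)]
      by_cases h1 : p + 2 * l = 2 * l + t + 1 ∨ p = 2 * l + t + 1 + 2 * l
      · rw [if_pos h1]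
        have hcu : (cu x z t p && bitOf (cell (W x y z) p)) = cu x z t (p + 1) := by
          rcases h1 with h | h
          · have hp1 : p = t + 1 := by omega
            subst hp1
            rw [bit_x x y z ht]
            unfold cu
            have c1 : ¬ t + 1 < t + 1 := by omega
            have c2 : ¬ 4 * l + t + 1 < t + 1 := by omega
            have c3 : t + 1 < t + 1 + 1 := by omega
            have c4 : ¬ 4 * l + t + 1 < t + 1 + 1 := by omega
            rw [if_neg c1, if_neg c2, if_pos c3, if_neg c4]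
            simp
          · have hp1 : p = 4 * l + t + 1 := by omega
            subst hp1
            rw [bit_z x y z ht]
            unfold cu
            have c1 : t + 1 < 4 * l + t + 1 := by omega
            have c2 : ¬ 4 * l + t + 1 < 4 * l + t + 1 := by omega
            have c3 : t + 1 < 4 * l + t + 1 + 1 := by omega
            have c4 : 4 * l + t + 1 < 4 * l + t + 1 + 1 := by omega
            rw [if_pos c1, if_neg c2, if_pos c3, if_pos c4]
            simp
        rw [hcu]
      · rw [if_neg h1]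
        have hcu : cu x z t p = cu x z t (p + 1) := by
          unfold cu
          have d1 : (t + 1 < p) ↔ (t + 1 < p + 1) := by omega
          have d2 : (4 * l + t + 1 < p) ↔ (4 * l + t + 1 < p + 1) := by omega
          simp only [d1, d2]
        rw [hcu]
    · simp
    · simp
    · show p + 1 ≤ 5 * l + 1
      omega
    · show 2 * l + t + 1 ≤ 5 * l + 1
      omega

lemma run_turn {t : ℕ} (ht : t < l) :
    U.Step (W x y z) (St.right (pr x y z t) (cu x z t (5 * l + 1)), ![5 * l + 1, 2 * l + t + 1])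
      (St.left (pr x y z (t + 1)), ![5 * l + 1, 2 * l + t + 1]) := by
  refine step_mk (W_length x y z) (m := ![0, 0]) ?_ ?_ ?_ ?_ ?_
  · unfold next
    have e0 : (![5 * l + 1, 2 * l + t + 1] : Fin 2 → ℕ) 0 = 5 * l + 1 := rfl
    have e1 : (![5 * l + 1, 2 * l + t + 1] : Fin 2 → ℕ) 1 = 2 * l + t + 1 := rfl
    simp only [e0, e1, if_true]
    rw [bit_y x y z ht]
    unfold cu
    rw [if_pos (by omega), if_pos (by omega)]
    rfl
  · simp
  · simp
  · show 5 * l + 1 ≤ 5 * l + 1
    exact le_rfl
  · show 2 * l + t + 1 ≤ 5 * l + 1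
    omega

lemma run_left {t : ℕ} (ht : t < l) (a : Bool) (p : ℕ) (hp : p ≤ 5 * l + 1) :
    StepN (U.Step (W x y z)) p (St.left a, ![5 * l + 1, 2 * l + t + 1])
      (St.left a, ![5 * l + 1 - p, 2 * l + t + 1]) := by
  induction p with
  | zero => rfl
  | succ p ih =>
    refine ⟨_, ih (by omega), step_mk (W_length x y z) (m := ![-1, 0]) ?_ ?_ ?_ ?_ ?_⟩
    · unfold next
      have e0 : ¬ (![5 * l + 1 - p, 2 * l + t + 1] : Fin 2 → ℕ) 0 = 0 := by
        show ¬ 5 * l + 1 - p = 0
        omega
      simp only [if_neg e0]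
    · show (((5 * l + 1 - (p + 1) : ℕ)) : ℤ) = ((5 * l + 1 - p : ℕ) : ℤ) + (((-1 : SignType)) : ℤ)
      have : ((-1 : SignType) : ℤ) = -1 := rfl
      rw [this]
      omega
    · simp
    · show 5 * l + 1 - (p + 1) ≤ 5 * l + 1
      omega
    · show 2 * l + t + 1 ≤ 5 * l + 1
      omega

/-- one round -/
lemma run_round {t : ℕ} (ht : t < l) :
    StepN (U.Step (W x y z)) (10 * l + 3) (St.right (pr x y z t) true, ![0, 2 * l + t + 1])
      (St.left (pr x y z (t + 1)), ![0, 2 * l + t + 1]) := by
  have h1 := run_right x y z ht (pr x y z t) (5 * l + 1) le_rfl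
  have h2 : StepN (U.Step (W x y z)) 1 _ _ := ⟨_, rfl, run_turn x y z ht⟩
  have h3 := run_left x y z ht (pr x y z (t + 1)) (5 * l + 1) le_rfl
  rw [Nat.sub_self] at h3
  have h4 := (h1.add h2).add h3
  have e : 5 * l + 1 + 1 + (5 * l + 1) = 10 * l + 3 := by omega
  rw [e] at h4
  exact h4

lemma run_next {t : ℕ} (ht : t + 1 < l) (a : Bool) :
    U.Step (W x y z) (St.left a, ![0, 2 * l + t + 1]) (St.right a true, ![0, 2 * l + (t + 1) + 1]) := by
  refine step_mk (W_length x y z) (m := ![0, 1]) ?_ ?_ ?_ ?_ ?_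
  · unfold next
    have e0 : (![0, 2 * l + t + 1] : Fin 2 → ℕ) 0 = 0 := rfl
    have e1 : ¬ (![0, 2 * l + t + 1] : Fin 2 → ℕ) 1 = 3 * l := by
      show ¬ 2 * l + t + 1 = 3 * l
      omega
    simp only [if_pos e0, if_neg e1]
  · simp
  · show ((2 * l + (t + 1) + 1 : ℕ) : ℤ) = ((2 * l + t + 1 : ℕ) : ℤ) + (((1 : SignType)) : ℤ)
    have : ((1 : SignType) : ℤ) = 1 := rfl
    rw [this]
    push_cast
    ring
  · simp
  · show 2 * l + (t + 1) + 1 ≤ 5 * l + 1
    omega

/-- all rounds up to `t` -/
lemma run_rounds (t : ℕ) (ht : t < l) :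
    StepN (U.Step (W x y z)) (2 * l + 2 + t * (10 * l + 4) + (10 * l + 3)) (St.go, ![0, 0])
      (St.left (pr x y z (t + 1)), ![0, 2 * l + t + 1]) := by
  induction t with
  | zero =>
    have h1 := run_go x y z (2 * l + 1) le_rfl
    have h2 : StepN (U.Step (W x y z)) 1 _ _ := ⟨_, rfl, run_switch x y z⟩
    have h3 := run_round x y z ht
    have h4 := (h1.add h2).add h3
    have e : 2 * l + 1 + 1 + (10 * l + 3) = 2 * l + 2 + 0 * (10 * l + 4) + (10 * l + 3) := by omega
    rw [← e]
    exact h4
  | succ t ih =>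
    have h1 := ih (by omega)
    have h2 : StepN (U.Step (W x y z)) 1 _ _ := ⟨_, rfl, run_next x y z ht (pr x y z (t + 1))⟩
    have h3 := run_round x y z ht
    have h4 := (h1.add h2).add h3
    have e : 2 * l + 2 + t * (10 * l + 4) + (10 * l + 3) + 1 + (10 * l + 3) =
        2 * l + 2 + (t + 1) * (10 * l + 4) + (10 * l + 3) := by ring
    rw [← e]
    exact h4

lemma pr_eq : pr x y z l = true ↔ sg x y z = -1 := by
  have key : ∀ t, (∏ i ∈ Finset.range t, sb (bt x i) (bt y i) (bt z i)) =
      if pr x y z t = true then -1 else 1 := by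
    intro t
    induction t with
    | zero => simp [pr]
    | succ t ih =>
      rw [Finset.prod_range_succ, ih]
      unfold sb
      have e : pr x y z (t + 1) = xor (pr x y z t) (bt x t && bt z t && bt y t) := rfl
      rw [e]
      cases pr x y z t <;> cases bt x t <;> cases bt y t <;> cases bt z t <;> simp
  have h : sg x y z = ∏ i ∈ Finset.range l, sb (bt x i) (bt y i) (bt z i) := by
    rw [← Fin.prod_univ_eq_prod_range (fun i => sb (bt x i) (bt y i) (bt z i)) l]
    unfold sg
    refine Finset.prod_congr rfl fun t _ => ?_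
    simp [bt]
  rw [h, key]
  cases pr x y z l <;> simp

/-- Two runs of a deterministic automaton agree. -/
lemma agree {α : Type*} {r : α → α → Prop} (hr : ∀ a b c, r a b → r a c → b = c) {T N : ℕ} {c g : ℕ → α}
    (h0 : c 0 = g 0) (hc : ∀ t < T, r (c t) (c (t + 1))) (hg : ∀ t < N, r (g t) (g (t + 1))) :
    ∀ t, t ≤ T → t ≤ N → c t = g t := by
  intro t
  induction t with
  | zero => intro _ _; exact h0
  | succ t ih =>
    intro h1 h2
    have h3 := ih (by omega) (by omega)
    have h4 := hc t (by omega)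
    rw [h3] at h4
    exact hr _ _ _ h4 (hg t (by omega))

/-- The automaton accepts `x a^l y b^l z` if and only if `∑ x_t y_t z_t` is odd, and then in at most `18 l ^ 2`
steps. -/
theorem U_spec (hl : 1 ≤ l) : (W x y z ∈ U.lang ↔ sg x y z = -1) ∧
    (sg x y z = -1 → ∃ T c, U.IsAccRun (W x y z) T c ∧ T ≤ 18 * l ^ 2) := by
  obtain ⟨k, rfl⟩ : ∃ k, l = k + 1 := ⟨l - 1, by omega⟩
  have hrun := run_rounds x y z k (by omega)
  have hpos : 2 * (k + 1) + k + 1 = 3 * (k + 1) := by ring
  rw [hpos] at hrun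
  set N := 2 * (k + 1) + 2 + k * (10 * (k + 1) + 4) + (10 * (k + 1) + 3) with hN
  have hNle : N + 1 ≤ 18 * (k + 1) ^ 2 := by
    rw [hN]
    nlinarith
  have hacc : pr x y z (k + 1) = true → ∃ T c, U.IsAccRun (W x y z) T c ∧ T ≤ 18 * (k + 1) ^ 2 := by
    intro h
    rw [h] at hrun
    have hs : U.Step (W x y z) (St.left true, ![0, 3 * (k + 1)]) (St.yes, ![0, 3 * (k + 1)]) := by
      refine step_mk (W_length x y z) (m := ![0, 0]) ?_ ?_ ?_ ?_ ?_
      · unfold next
        have e0 : (![0, 3 * (k + 1)] : Fin 2 → ℕ) 0 = 0 := rfl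
        have e1 : (![0, 3 * (k + 1)] : Fin 2 → ℕ) 1 = 3 * (k + 1) := rfl
        simp only [if_pos e0, if_pos e1, if_true]
      · simp
      · simp
      · simp
      · show 3 * (k + 1) ≤ 5 * (k + 1) + 1
        omega
    have h2 : StepN (U.Step (W x y z)) (N + 1) (St.go, ![0, 0]) (St.yes, ![0, 3 * (k + 1)]) := ⟨_, hrun, hs⟩
    obtain ⟨g, g0, gn, hg⟩ := h2.exists_fun
    refine ⟨N + 1, g, ⟨?_, hg, ?_⟩, hNle⟩
    · rw [g0]
      refine Prod.ext rfl ?_
      funext i
      fin_cases i <;> rfl
    · rw [gn]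
      rfl
  refine ⟨⟨fun h => ?_, fun h => ?_⟩, fun h => hacc ((pr_eq x y z).2 h)⟩
  · rw [← pr_eq]
    by_contra hne
    have hf : pr x y z (k + 1) = false := by
      cases hb : pr x y z (k + 1) with
      | false => rfl
      | true => exact absurd hb hne
    rw [hf] at hrun
    obtain ⟨T, c, h0, hc, hT⟩ := h
    obtain ⟨g, g0, gn, hg⟩ := hrun.exists_fun
    have hstart : c 0 = g 0 := by
      rw [h0, g0]
      refine Prod.ext rfl ?_
      funext i
      fin_cases i <;> rfl
    have hag := agree (fun a b c => U_det (W x y z) a b c) hstart hc hg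
    have hyes : ∀ e d : U.Cfg, e.1 = St.yes → ¬ U.Step (W x y z) e d := by
      rintro ⟨q, p⟩ d hq ⟨m, h1, -, -⟩
      have hq' : q = St.yes := hq
      subst hq'
      exact absurd h1 (by simp [U, next])
    have hstuck : ∀ d : U.Cfg, ¬ U.Step (W x y z) (St.left false, ![0, 3 * (k + 1)]) d := by
      rintro d ⟨m, h1, -, -⟩
      have h2 : next ((W x y z).length / 5) ![0, 3 * (k + 1)] (St.left false)
          (fun i => cell (W x y z) (![0, 3 * (k + 1)] i)) = some (d.1, m) := h1
      rw [W_length, Nat.mul_div_cancel_left _ (by norm_num)] at h2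
      unfold next at h2
      have e0 : (![0, 3 * (k + 1)] : Fin 2 → ℕ) 0 = 0 := rfl
      have e1 : (![0, 3 * (k + 1)] : Fin 2 → ℕ) 1 = 3 * (k + 1) := rfl
      simp only [if_pos e0, if_pos e1] at h2
      simp at h2
    have hTy : (c T).1 = St.yes := hT
    rcases lt_trichotomy T N with h3 | h3 | h3
    · have h4 := hag T le_rfl h3.le
      have h5 := hg T h3
      rw [← h4] at h5
      exact hyes (c T) (g (T + 1)) hTy h5
    · have h4 := hag T le_rfl h3.le
      rw [h4, h3, gn] at hTy
      exact absurd hTy (by simp)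
    · have h4 := hag N h3.le le_rfl
      have h5 := hc N h3
      rw [h4, gn] at h5
      exact hstuck _ h5
  · obtain ⟨T, c, hc, -⟩ := hacc ((pr_eq x y z).2 h)
    exact ⟨T, c, hc⟩

end Run

end Pool.Agent.L0h80.AW
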